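import Pool.Agent.Helper19.PM.GoalsS

/-!
# Project P1S (MP_a41896_nt), packet SPECS: specialisation of the identities
-/

set_option autoImplicit false

open MvPolynomial

namespace Pool.Agent.Helper78.PM

open Height
open Pool.Agent.Helper19.PM
open Pool.Agent.Helper5.UN (CodimGT cH)
open Pool.Agent.Helper92.PN (uu fl)

noncomputable section

section lift

variable {K : Type} [Field K] {σ : Type} [DecidableEq σ]

/-- `f` as a polynomial in the `X_i`, `i ∉ S`, over `K[X_i : i ∈ S]` -/
def fR (S : Finset σ) (f : MvPolynomial σ K) :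
    MvPolynomial {i // i ∉ S} (MvPolynomial {i // i ∈ S} K) :=
  aeval (fun i : σ => if h : i ∈ S then C (X ⟨i, h⟩) else X ⟨i, h⟩) f

theorem map_fR_G (S : Finset σ) (f : MvPolynomial σ K) :
    map (algebraMap (MvPolynomial {i // i ∈ S} K) (KS K S)) (fR S f) = fG S f := by
  induction f using MvPolynomial.induction_on with
  | C a =>
    unfold fR fG
    rw [aeval_C, aeval_C, MvPolynomial.algebraMap_apply, map_C,
      ← IsScalarTower.algebraMap_apply K (MvPolynomial {i // i ∈ S} K) (KS K S) a,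
      ← MvPolynomial.algebraMap_apply]
  | add p q hp hq =>
    unfold fR fG at *
    rw [map_add, map_add, hp, hq, map_add]
  | mul_X p i hp =>
    unfold fR fG at *
    rw [map_mul, map_mul, hp, map_mul]
    congr 1
    rw [aeval_X, aeval_X]
    by_cases h : i ∈ S
    · rw [dif_pos h, dif_pos h, map_C]
    · rw [dif_neg h, dif_neg h, map_X]

theorem map_fR_T (S : Finset σ) (t : σ → K) (f : MvPolynomial σ K) :
    map (eval fun i : {i // i ∈ S} => t i.1) (fR S f) = fT S t f := by
  induction f using MvPolynomial.induction_on with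
  | C a =>
    unfold fR fT
    rw [aeval_C, aeval_C, MvPolynomial.algebraMap_apply, MvPolynomial.algebraMap_apply, map_C]
    simp
  | add p q hp hq =>
    unfold fR fT at *
    rw [map_add, map_add, hp, hq, map_add]
  | mul_X p i hp =>
    unfold fR fT at *
    rw [map_mul, map_mul, hp, map_mul]
    congr 1
    rw [aeval_X, aeval_X]
    by_cases h : i ∈ S
    · rw [dif_pos h, dif_pos h, map_C, eval_X]
    · rw [dif_neg h, dif_neg h, map_X]

end lift

section den

variable {R k τ : Type} [CommRing R] [Field k] [Algebra R k]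

/-- a polynomial whose coefficients become integral after multiplication by `b` -/
theorem exists_lift (b : R) (p : MvPolynomial τ k)
    (h : ∀ m ∈ p.support, ∃ r : R, algebraMap R k r = algebraMap R k b * coeff m p) :
    ∃ q : MvPolynomial τ R, map (algebraMap R k) q = C (algebraMap R k b) * p := by
  classical
  choose! r hr using h
  refine ⟨∑ m ∈ p.support, monomial m (r m), ?_⟩
  conv_rhs => rw [p.as_sum, Finset.mul_sum]
  rw [map_sum]
  refine Finset.sum_congr rfl fun m hm => ?_
  rw [map_monomial, hr m hm, C_mul_monomial]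

theorem degreeOf_map_le {R' : Type} [CommRing R'] (φ : R →+* R') (p : MvPolynomial τ R) (i : τ) :
    degreeOf i (map φ p) ≤ degreeOf i p := by
  classical
  rw [degreeOf_eq_sup, degreeOf_eq_sup]
  exact Finset.sup_mono (support_map_subset φ p)

theorem degreeOf_map_inj {R' : Type} [CommRing R'] (φ : R →+* R') (hφ : Function.Injective φ)
    (p : MvPolynomial τ R) (i : τ) : degreeOf i (map φ p) = degreeOf i p := by
  classical
  rw [degreeOf_eq_sup, degreeOf_eq_sup, support_map_of_injective p hφ]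

end den

section height

variable {K : Type} [Field K] [NumberField K] {σ : Type} [Fintype σ] [DecidableEq σ]

/-- the size of the slow coordinates -/
def hS (S : Finset σ) (t : σ → K) : ℝ := 1 + ∑ i ∈ S, logHeight₁ (t i)

theorem hS_pos (S : Finset σ) (t : σ → K) : 0 ≤ hS S t :=
  add_nonneg zero_le_one (Finset.sum_nonneg fun i _ => zero_le_logHeight₁ (t i))

omit [NumberField K] [Fintype σ] in
theorem degreeOf_rename_val (S : Finset σ) (r : MvPolynomial {i // i ∈ S} K) {i : σ} (hi : i ∉ S) :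
    degreeOf i (rename (Subtype.val : {i // i ∈ S} → σ) r) = 0 := by
  rw [degreeOf_def, Multiset.count_eq_zero]
  intro h
  have h2 : i ∈ vars (rename (Subtype.val : {i // i ∈ S} → σ) r) := by
    rw [vars_def, Multiset.mem_toFinset]
    exact h
  have h1 := vars_rename (Subtype.val : {i // i ∈ S} → σ) r h2
  rw [Finset.mem_image] at h1
  obtain ⟨j, -, rfl⟩ := h1
  exact hi j.2

theorem ht_val (he : HEV) (S : Finset σ) (r : MvPolynomial {i // i ∈ S} K) :
    ∃ C : ℝ, 0 ≤ C ∧ ∀ t : σ → K,
      logHeight₁ (eval (fun i : {i // i ∈ S} => t i.1) r) ≤ C * hS S t := by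
  obtain ⟨C, hC, h⟩ := he K σ S (rename Subtype.val r) fun i hi => degreeOf_rename_val S r hi
  refine ⟨C, hC, fun t => ?_⟩
  have h1 := h t
  rw [eval_rename] at h1
  exact h1

theorem ht_coeff (he : HEV) (S : Finset σ) {τ : Type} (p : MvPolynomial τ (MvPolynomial {i // i ∈ S} K)) :
    ∃ C : ℝ, 0 ≤ C ∧ ∀ (t : σ → K) (m : τ →₀ ℕ),
      logHeight₁ (coeff m (map (eval fun i : {i // i ∈ S} => t i.1) p)) ≤ C * hS S t := by
  classical
  choose B hB hB' using fun m : τ →₀ ℕ => ht_val he S (coeff m p)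
  refine ⟨∑ m ∈ p.support, B m, Finset.sum_nonneg fun m _ => hB m, fun t m => ?_⟩
  rw [coeff_map]
  by_cases hm : m ∈ p.support
  · refine (hB' m t).trans (mul_le_mul_of_nonneg_right ?_ (hS_pos S t))
    exact Finset.single_le_sum (f := B) (fun i _ => hB i) hm
  · rw [notMem_support_iff.1 hm, map_zero, logHeight₁_zero]
    exact mul_nonneg (Finset.sum_nonneg fun m _ => hB m) (hS_pos S t)

theorem fin_sup {ι : Type} [Finite ι] {X : Type} (u : X → ℝ) (hu : ∀ x, 0 ≤ u x) (g : ι → X → ℝ)
    (h : ∀ i, ∃ C : ℝ, 0 ≤ C ∧ ∀ x, g i x ≤ C * u x) :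
    ∃ C : ℝ, 0 ≤ C ∧ ∀ i x, g i x ≤ C * u x := by
  classical
  have := Fintype.ofFinite ι
  choose B hB hB' using h
  refine ⟨∑ i, B i, Finset.sum_nonneg fun i _ => hB i, fun i x => ?_⟩
  refine (hB' i x).trans (mul_le_mul_of_nonneg_right ?_ (hu x))
  exact Finset.single_le_sum (f := B) (fun i _ => hB i) (Finset.mem_univ i)

end height

theorem t_SPECS (hc : CODS) (he : HEV) : SPECS := by
  intro K _ _ σ _ _ S J _ D s f hD hcd hs
  classical
  obtain ⟨hD', hcod⟩ := hc K σ S D s J f hD hcd
  have hinj : Function.Injective (algebraMap (MvPolynomial {i // i ∈ S} K) (KS K S)) :=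
    IsFractionRing.injective _ _
  have hinfK : Infinite K := CharZero.infinite K
  have hinfR : Infinite (MvPolynomial {i // i ∈ S} K) := Infinite.of_injective _ (C_injective _ _)
  have hinf : Infinite (KS K S) := Infinite.of_injective _ hinj
  obtain ⟨c, y, k₁, H, h1, h2, h3, h4, h5⟩ :=
    Pool.Agent.Helper92.PN.exists_mul D s (fun j => fG S (f j)) hD' hcod hs
  -- common denominator
  let A : Finset (KS K S) :=
    (Finset.univ.image fun q : Fin (s + 1) × J => c q.1 q.2) ∪
    ((Finset.univ.biUnion fun l => (y l).support.image fun m => coeff m (y l)) ∪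
     (Finset.univ.biUnion fun q : ({i // i ∉ S} → Bool) ×
        (Fin (s + 1) ⊕ Fin (Fintype.card {i // i ∉ S} - (s + 1) + 1)) =>
        (H q.1 q.2).support.image fun m => coeff m (H q.1 q.2)))
  obtain ⟨b, hb⟩ := IsLocalization.exist_integer_multiples_of_finset
    (nonZeroDivisors (MvPolynomial {i // i ∈ S} K)) A
  have hb0 : (b : MvPolynomial {i // i ∈ S} K) ≠ 0 := nonZeroDivisors.coe_ne_zero b
  have hint : ∀ a ∈ A, ∃ r : MvPolynomial {i // i ∈ S} K,
      algebraMap (MvPolynomial {i // i ∈ S} K) (KS K S) r =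
        algebraMap (MvPolynomial {i // i ∈ S} K) (KS K S) b * a := by
    intro a ha
    obtain ⟨r, hr⟩ := hb a ha
    exact ⟨r, by rw [hr, Algebra.smul_def]⟩
  have hcA : ∀ l j, ∃ r : MvPolynomial {i // i ∈ S} K,
      algebraMap (MvPolynomial {i // i ∈ S} K) (KS K S) r =
        algebraMap (MvPolynomial {i // i ∈ S} K) (KS K S) b * c l j := by
    intro l j
    refine hint _ (Finset.mem_union_left _ (Finset.mem_image.2 ⟨(l, j), Finset.mem_univ _, rfl⟩))
  have hyA : ∀ l, ∃ q : MvPolynomial {i // i ∉ S} (MvPolynomial {i // i ∈ S} K),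
      map (algebraMap (MvPolynomial {i // i ∈ S} K) (KS K S)) q =
        C (algebraMap (MvPolynomial {i // i ∈ S} K) (KS K S) b) * y l := by
    intro l
    refine exists_lift _ _ fun m hm => hint _ (Finset.mem_union_right _ (Finset.mem_union_left _ ?_))
    exact Finset.mem_biUnion.2 ⟨l, Finset.mem_univ _, Finset.mem_image.2 ⟨m, hm, rfl⟩⟩
  have hHA : ∀ a l, ∃ q : MvPolynomial {i // i ∉ S} (MvPolynomial {i // i ∈ S} K),
      map (algebraMap (MvPolynomial {i // i ∈ S} K) (KS K S)) q =
        C (algebraMap (MvPolynomial {i // i ∈ S} K) (KS K S) b) * H a l := by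
    intro a l
    refine exists_lift _ _ fun m hm => hint _ (Finset.mem_union_right _ (Finset.mem_union_right _ ?_))
    exact Finset.mem_biUnion.2 ⟨(a, l), Finset.mem_univ _, Finset.mem_image.2 ⟨m, hm, rfl⟩⟩
  choose c' hc' using hcA
  choose y' hy' using hyA
  choose H' hH' using hHA
  -- the identity over `K[X_S]`
  let φ := algebraMap (MvPolynomial {i // i ∈ S} K) (KS K S)
  let uR : Fin (s + 1) ⊕ Fin (Fintype.card {i // i ∉ S} - (s + 1) + 1) →
      MvPolynomial {i // i ∉ S} (MvPolynomial {i // i ∈ S} K) :=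
    Sum.elim (fun l => ∑ j, C (c' l j) * fR S (f j)) y'
  have huR : ∀ l, map φ (uR l) = C (φ b) * uu (fun j => fG S (f j)) c y l := by
    intro l
    rcases l with l | l
    · show map φ (∑ j, C (c' l j) * fR S (f j)) = C (φ b) * ∑ j, c l j • fG S (f j)
      rw [map_sum, Finset.mul_sum]
      refine Finset.sum_congr rfl fun j _ => ?_
      rw [map_mul, map_C, map_fR_G, smul_eq_C_mul, ← mul_assoc, ← C_mul]
      congr 2
      exact hc' l j
    · exact hy' l
  have hid : ∀ a, ∑ l, H' a l * uR l = monomial (fl a k₁ 0) ((b : MvPolynomial {i // i ∈ S} K) ^ 2) := by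
    intro a
    apply map_injective φ hinj
    rw [map_sum, map_monomial]
    have e1 : ∀ l, map φ (H' a l * uR l) =
        C (φ b ^ 2) * (H a l * uu (fun j => fG S (f j)) c y l) := by
      intro l
      rw [map_mul, huR, hH', C_pow]
      ring
    rw [Finset.sum_congr rfl fun l _ => e1 l, ← Finset.mul_sum, h5 a, C_mul_monomial, mul_one, map_pow φ]
  -- degrees
  have hdy : ∀ l i, degreeOf i (y' l) ≤ D := by
    intro l i
    rw [← degreeOf_map_inj φ hinj, hy' l]
    exact (degreeOf_C_mul_le _ _ _).trans (h3 l i)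
  have hdH : ∀ a l i, degreeOf i (H' a l) + D ≤ k₁ := by
    intro a l i
    rw [← degreeOf_map_inj φ hinj, hH' a l]
    exact (Nat.add_le_add_right (degreeOf_C_mul_le _ _ _) D).trans (h4 a l i)
  -- heights
  obtain ⟨B1, hB1, hB1'⟩ := fin_sup (fun x : (σ → K) × ({i // i ∉ S} →₀ ℕ) => hS S x.1)
    (fun x => hS_pos S x.1)
    (fun (j : J) x => logHeight₁ (coeff x.2 (map (eval fun i : {i // i ∈ S} => x.1 i.1) (fR S (f j)))))
    (fun j => by
      obtain ⟨B, hB, hB'⟩ := ht_coeff he S (fR S (f j))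
      exact ⟨B, hB, fun x => hB' x.1 x.2⟩)
  obtain ⟨B2, hB2, hB2'⟩ := fin_sup (fun x : σ → K => hS S x) (fun x => hS_pos S x)
    (fun (q : Fin (s + 1) × J) x => logHeight₁ (eval (fun i : {i // i ∈ S} => x i.1) (c' q.1 q.2)))
    (fun q => ht_val he S (c' q.1 q.2))
  obtain ⟨B3, hB3, hB3'⟩ := fin_sup (fun x : (σ → K) × ({i // i ∉ S} →₀ ℕ) => hS S x.1)
    (fun x => hS_pos S x.1)
    (fun (l : Fin (Fintype.card {i // i ∉ S} - (s + 1) + 1)) x =>
      logHeight₁ (coeff x.2 (map (eval fun i : {i // i ∈ S} => x.1 i.1) (y' l))))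
    (fun l => by
      obtain ⟨B, hB, hB'⟩ := ht_coeff he S (y' l)
      exact ⟨B, hB, fun x => hB' x.1 x.2⟩)
  obtain ⟨B4, hB4, hB4'⟩ := fin_sup (fun x : (σ → K) × ({i // i ∉ S} →₀ ℕ) => hS S x.1)
    (fun x => hS_pos S x.1)
    (fun (q : ({i // i ∉ S} → Bool) ×
        (Fin (s + 1) ⊕ Fin (Fintype.card {i // i ∉ S} - (s + 1) + 1))) x =>
      logHeight₁ (coeff x.2 (map (eval fun i : {i // i ∈ S} => x.1 i.1) (H' q.1 q.2))))
    (fun q => by
      obtain ⟨B, hB, hB'⟩ := ht_coeff he S (H' q.1 q.2)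
      exact ⟨B, hB, fun x => hB' x.1 x.2⟩)
  obtain ⟨B5, hB5, hB5'⟩ := ht_val he S (b : MvPolynomial {i // i ∈ S} K)
  refine ⟨rename Subtype.val (b : MvPolynomial {i // i ∈ S} K), k₁, B1 + B2 + B3 + B4 + 2 * B5,
    ?_, ?_, h1, h2, by positivity, ?_⟩
  · intro h
    exact hb0 (rename_injective _ Subtype.val_injective (by rw [h, map_zero]))
  · intro i hi
    exact degreeOf_rename_val S _ hi
  intro t ht
  rw [eval_rename] at ht
  set E := eval (fun i : {i // i ∈ S} => t i.1) with hE
  have ht' : E (b : MvPolynomial {i // i ∈ S} K) ≠ 0 := ht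
  have hle : ∀ B x : ℝ, B ≤ B1 + B2 + B3 + B4 + 2 * B5 → x ≤ B * hS S t →
      x ≤ (B1 + B2 + B3 + B4 + 2 * B5) * (1 + ∑ i ∈ S, logHeight₁ (t i)) := fun B x h h' =>
    h'.trans (mul_le_mul_of_nonneg_right h (hS_pos S t))
  refine ⟨fun j m => ?_, fun l j => E (c' l j), fun l => map E (y' l),
    fun a l => C ((E (b : MvPolynomial {i // i ∈ S} K) ^ 2)⁻¹) * map E (H' a l), ?_, ?_, ?_, ?_, ?_, ?_⟩
  · rw [← map_fR_T]
    exact hle B1 _ (by linarith) (hB1' j (t, m))
  · intro l i
    exact (degreeOf_map_le E _ i).trans (hdy l i)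
  · intro a l i
    exact (Nat.add_le_add_right ((degreeOf_C_mul_le _ _ _).trans (degreeOf_map_le E _ i)) D).trans
      (hdH a l i)
  · intro a
    have e2 : ∀ l, uu (fun j => fT S t (f j)) (fun l j => E (c' l j)) (fun l => map E (y' l)) l =
        map E (uR l) := by
      intro l
      rcases l with l | l
      · show ∑ j, E (c' l j) • fT S t (f j) = map E (∑ j, C (c' l j) * fR S (f j))
        rw [map_sum]
        refine Finset.sum_congr rfl fun j _ => ?_
        rw [map_mul, map_C, map_fR_T, smul_eq_C_mul]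
      · rfl
    have e3 : ∀ l, C ((E (b : MvPolynomial {i // i ∈ S} K) ^ 2)⁻¹) * map E (H' a l) *
        uu (fun j => fT S t (f j)) (fun l j => E (c' l j)) (fun l => map E (y' l)) l =
        C ((E (b : MvPolynomial {i // i ∈ S} K) ^ 2)⁻¹) * map E (H' a l * uR l) := by
      intro l
      rw [e2 l, map_mul, mul_assoc]
    rw [Finset.sum_congr rfl fun l _ => e3 l, ← Finset.mul_sum, ← map_sum, hid a, map_monomial,
      C_mul_monomial, map_pow E, inv_mul_cancel₀ (pow_ne_zero 2 ht')]
  · intro l j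
    exact hle B2 _ (by linarith) (hB2' (l, j) t)
  · intro l m
    exact hle B3 _ (by linarith) (hB3' l (t, m))
  · intro a l m
    rw [coeff_C_mul]
    refine hle (B4 + 2 * B5) _ (by linarith) ?_
    refine (logHeight₁_mul_le _ _).trans ?_
    rw [logHeight₁_inv, logHeight₁_pow]
    have e4 := hB4' (a, l) (t, m)
    have e5 := hB5' t
    have e6 : ((2 : ℕ) : ℝ) * logHeight₁ (E (b : MvPolynomial {i // i ∈ S} K)) ≤ 2 * (B5 * hS S t) := by
      push_cast
      exact mul_le_mul_of_nonneg_left e5 zero_le_two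
    calc ((2 : ℕ) : ℝ) * logHeight₁ (E (b : MvPolynomial {i // i ∈ S} K)) +
          logHeight₁ (coeff m (map E (H' a l))) ≤ 2 * (B5 * hS S t) + B4 * hS S t :=
          add_le_add e6 e4
      _ = (B4 + 2 * B5) * hS S t := by ring

end

end Pool.Agent.Helper78.PM
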