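import Pool.Agent.Helper78.PM.Goals
import Pool.Agent.Helper79.PM.PML
import Pool.Agent.Helper89.PM.PMT
import Pool.Agent.Helper62.PM.PMA
import Pool.Agent.Helper94.PM.PMG

/-!
# Parallel randomized algorithms with small memories: the assembly
-/

namespace Pool.Agent.Helper78.PM

open Pool.Agent.Helper51.ZP

theorem main (c e k : ℕ) : Approximable c e k ∧
    ∀ L : Set (List Bool), InP L ↔ DecidedWithGap c e k L := by
  have hA : PmaStmt := Pool.Agent.Helper62.PM.pma Pool.Agent.Helper79.PM.pmr
    Pool.Agent.Helper79.PM.pml Pool.Agent.Helper89.PM.pmt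
  exact ⟨hA c e k, Pool.Agent.Helper94.PM.pmg hA c e k⟩

end Pool.Agent.Helper78.PM
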