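import Pool.Agent.Helper78.PM.Defs
import Pool.Agent.Helper78.AO.Final
import Pool.Agent.Helper78.JT.Final

/-!
# Parallel randomized algorithms with small memories: the statements, with proofs in words

All the goals of the projects AO and JT are proved (`AO/Final.lean`, `JT/Final.lean` and their
imports) and may be used: `Pool.Agent.Helper78.AO.mlsS : MlsStmt`, `Pool.Agent.Helper83.AO.rk0`,
`Pool.Agent.Helper78.JT.gejS : GejStmt`. `ListsJ` is in `JT/Goals.lean`, `GejStmt` in
`JT/Goals2.lean`, `runK`, `Lists`, `PolyR`, `MlsStmt` in `AO/Goals.lean`.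
-/

namespace Pool.Agent.Helper78.PM

open Pool.Agent.Helper81.CC Pool.Agent.Helper51.ZP Pool.Agent.Helper78.DT Pool.Agent.Helper78.AO
  Pool.Agent.Helper78.JT
open scoped Classical

/-- The action of the thread `j` is computable in polynomial time. -/
theorem thr_poly (A : PM.Machine) (j : ℕ) :
    PolyTimeComputable (encOf AO.View) (encOf ℕ) fun v => A.act (j, v) := by
  have h1 : PolyTime A.act := Pool.Agent.Helper61.DT.PT_of_comp' A.act_poly
  have h2 : PolyTime fun v : AO.View => A.act (j, v) :=
    PolyTime.comp (g := A.act) (f := fun v : AO.View => (j, v)) h1 (by fun_prop)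
  exact h2.computable

/-- The thread `j` as a machine with one thread. -/
def thr (A : PM.Machine) (j : ℕ) : AO.Machine where
  m := A.m
  T := A.T
  act := fun v => A.act (j, v)
  m_poly := A.m_poly
  T_poly := A.T_poly
  act_poly := thr_poly A j

/-- The answer computed from the balanced runs of the threads. -/
def FK (A : PM.Machine) (c : ℕ) (x : List Bool) (K t : ℕ) (h : ℕ → ℕ) (b : ℕ → Bool) : Bool :=
  A.out (x, (List.range (A.r x)).map fun j => runK (thr A j) x c K t h b (A.T x) 0 [])

/-- **PMR.** The threads as machines, without restriction.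

Proof. `PM.bits (fun z => A.act (j, z)) x b i M k = AO.bits (thr A j) x b i M k` (induction on `k`),
then `PM.run (fun z => A.act (j, z)) c x b n i M = AO.run (thr A j) c x b n i M` (induction on `n`;
`PM.bd = AO.bd`, `PM.msize = AO.msize` and `PM.coins = AO.coins` by `rfl`), then
`Pool.Agent.Helper83.AO.rk0`. -/
def PmrStmt : Prop := ∀ (A : PM.Machine) (c : ℕ) (x : List Bool) (b : ℕ → Bool),
  A.out (x, PM.results A c x b) = FK A c x 0 0 (fun _ => 0) b

/-- **PML.** The answers are given by tuples of decision lists.

Proof. For each `j : Fin (A.r x)` take the list `f j` of `mlsS (thr A j) x c`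
(`mlsS : ∀ A x c, Lists (A.m x) (2 * bd c x) fun K t h b => runK A x c K t h b (A.T x) 0 []`), by
choice, and `H v = A.out (x, List.ofFn v)`. Then
`H (fun j => ev ((f j).filter (bal K t h)) b) = FK A c x K t h (cf b)`, because
`List.ofFn (fun j : Fin r => g j) = (List.range r).map g`. -/
def PmlStmt : Prop := ∀ (A : PM.Machine) (c : ℕ) (x : List Bool),
  ListsJ (A.m x) (2 * AO.bd c x) (A.r x) fun K t h b => FK A c x K t h b

/-- **PMT.** The answers are computed in polynomial time.

Proof. Adapt `Pool.Agent.Helper16.AO.PTM`: everything there is uniform in `j`. For `j : γ → ℕ`,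
`PolyTime j`, the function `fun c => (thr A (j c)).act (x c, i c, M c, a c)
= A.act (j c, x c, i c, M c, a c)` is in `PolyTime`; so are `bits`, `lit`, `litm`, `nms`, `okl`, and
`runK` (as an iteration, with `runK_eq`, `inv_iter`, `sz_inv` of this file applied to `thr A (j c)`),
for `thr A (j c)` instead of `A`; the lemmas without time (`bits_eq`, `length_bits`, `runK_eq`,
`inv_iter`, `sz_inv`) can be used as they are. Then `PolyTime.list_map` over
`List.range (A.r (x c))` (with `γ × ℕ` instead of `γ` and `j = Prod.snd`), and `A.out_poly`. -/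
def PmtStmt : Prop := ∀ (A : PM.Machine) (c : ℕ),
  PolyR fun (x : List Bool) K t h b => FK A c x K t h b

/-- **PMA.** Approximation. (May assume `PmrStmt`, `PmlStmt`, `PmtStmt`; use
`Pool.Agent.Helper78.JT.gejS`.)

Proof. As `Pool.Agent.Helper9.AO.map` (its `rd`, `rd_spec` can be used): GEJ with
`s x = x.length + A.m x`, `c1 = 2 * c`, `e`, `c0 = k + 2` and `r = A.r x`:
`2 * bd c x ≤ 2 * c * lg (s x)` as there (a lemma `listsJ_mono` for the width is needed), and
`A.r x ^ (e + 1) ≤ (Nat.log 2 x.length + 2) ^ e ≤ lg (s x) ^ e` by `Few`. -/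
def PmaStmt : Prop := ∀ c e k : ℕ, PM.Approximable c e k

/-- **PMG.** Languages. (May assume `PmaStmt`.)

Proof. As `Pool.Agent.Helper78.AO.mga`: `←` by the approximation with the exponent `k + 2`
(literally the same); `→` by the algorithm without coins (`m = 0`, `T = 0`) and without threads
(`r = 0`, and `0 ^ (e + 1) = 0`), with `act = fun _ => 0` and `out z = f z.1`. -/
def PmgStmt : Prop := ∀ (c e k : ℕ) (L : Set (List Bool)), InP L ↔ PM.DecidedWithGap c e k L

end Pool.Agent.Helper78.PM
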