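import Mathlib.Data.Nat.Log
import Mathlib.Data.Real.Basic
import Pool.Agent.Helper51.ZP.Defs

/-!
# Parallel randomized algorithms which keep only few coins in their memories

Turing machines are Mathlib's multi-stack machines; `PolyTimeComputable` is in
`Pool.Agent.Helper81.CxDefs`, the coding `encOf` of structured data (with numbers in unary) is in
`Pool.Agent.Helper81.CxData`, and `InP` is in `Pool.Agent.Helper51.ZP.Defs`.
-/

namespace Pool.Agent.Helper78.PM

open Pool.Agent.Helper81.CC

/-- The memory of a thread: the list of the stages which have changed it, with the bits read in
them. -/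
abbrev Mem := List (ℕ × List Bool)

/-- What a stage of a thread knows: the input, the number of the stage, the memory of the thread,
and the list of the bits which the stage has read so far. -/
abbrev View := List Bool × ℕ × Mem × List Bool

/-- A randomized algorithm. The coins are tossed in advance. There are `r x` threads, which use the
same coins. Each thread consists of stages, and each stage may read any coins, one after the other,
adaptively. `act (j, z)` says what a stage of the thread `j` does next: `0`: it ends and forgets
everything that it has read; `1`: the thread ends with the result `false`; `2`: the thread ends with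
the result `true`; `3`: the stage ends and stores all the bits that it has read in the memory of the
thread; `v + 4`: it reads the coin `v`. At the end, `out` computes the answer from the input and the
results of all threads. Numbers are coded in unary, so `m`, `T` and `r` are at most polynomial. -/
structure Machine where
  /-- the number of the coins -/
  m : List Bool → ℕ
  /-- the number of the stages of each thread -/
  T : List Bool → ℕ
  /-- the number of the threads -/
  r : List Bool → ℕ
  /-- the next action of a stage -/
  act : ℕ × View → ℕ
  /-- the answer -/
  out : List Bool × List Bool → Bool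
  m_poly : PolyTimeComputable (encOf (List Bool)) (encOf ℕ) m
  T_poly : PolyTimeComputable (encOf (List Bool)) (encOf ℕ) T
  r_poly : PolyTimeComputable (encOf (List Bool)) (encOf ℕ) r
  act_poly : PolyTimeComputable (encOf (ℕ × View)) (encOf ℕ) act
  out_poly : PolyTimeComputable (encOf (List Bool × List Bool)) (encOf Bool) out

/-- The bound `c log₂ |x| + c`. -/
def bd (c : ℕ) (x : List Bool) : ℕ := c * Nat.log 2 x.length + c

/-- The number of the bits in the memory. -/
def msize (M : Mem) : ℕ := (M.map fun e => e.2.length).sum

/-- The bits read by the stage `i` with the memory `M` in its first `k` reading steps (or until it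
ends); `b v` is the value of the coin `v`. -/
def bits (act : View → ℕ) (x : List Bool) (b : ℕ → Bool) (i : ℕ) (M : Mem) : ℕ → List Bool
  | 0 => []
  | k + 1 =>
    if 4 ≤ act (x, i, M, bits act x b i M k) then
      bits act x b i M k ++ [b (act (x, i, M, bits act x b i M k) - 4)]
    else bits act x b i M k

/-- The result of a thread, run for its last `n` stages, from the stage `i` and the memory `M`. A
stage reads at most `bd c x` coins, and the memory has room for `bd c x` bits in all: a stage which
wants to read or to store more is forgotten. A thread which does not end has the result `false`. -/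
def run (act : View → ℕ) (c : ℕ) (x : List Bool) (b : ℕ → Bool) : ℕ → ℕ → Mem → Bool
  | 0, _, _ => false
  | n + 1, i, M =>
    if act (x, i, M, bits act x b i M (bd c x)) = 1 then false
    else if act (x, i, M, bits act x b i M (bd c x)) = 2 then true
    else if act (x, i, M, bits act x b i M (bd c x)) = 3 ∧
        msize M + (bits act x b i M (bd c x)).length ≤ bd c x then
      run act c x b n (i + 1) (M ++ [(i, bits act x b i M (bd c x))])
    else run act c x b n (i + 1) M

/-- The list of the results of the threads. -/
def results (A : Machine) (c : ℕ) (x : List Bool) (b : ℕ → Bool) : List Bool :=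
  (List.range (A.r x)).map fun j => run (fun z => A.act (j, z)) c x b (A.T x) 0 []

/-- The coins as a function on all numbers (`false` if there is no such coin). -/
def coins {m : ℕ} (y : Fin m → Bool) (v : ℕ) : Bool := if h : v < m then y ⟨v, h⟩ else false

/-- The number of the coin strings with the answer `true`. -/
noncomputable def acc (A : Machine) (c : ℕ) (x : List Bool) : ℕ :=
  Nat.card {y : Fin (A.m x) → Bool // A.out (x, results A c x (coins y)) = true}

/-- There are at most `(log₂ |x| + 2) ^ (e / (e + 1))` threads. -/
def Few (e : ℕ) (A : Machine) : Prop :=
  ∀ x : List Bool, A.r x ^ (e + 1) ≤ (Nat.log 2 x.length + 2) ^ e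

/-- The probability of the answer `true` can be approximated in polynomial time up to
`1 / (log₂ |x| + 2) ^ k`, for every `k` and every algorithm with at most
`(log₂ |x| + 2) ^ (e / (e + 1))` threads. -/
def Approximable (c e k : ℕ) : Prop := ∀ A : Machine, Few e A → ∃ f : List Bool → ℕ,
  PolyTimeComputable (encOf (List Bool)) (encOf ℕ) f ∧ ∀ x,
    |(f x : ℝ) / (Nat.log 2 x.length + 2 : ℕ) ^ k - (acc A c x : ℝ) / 2 ^ A.m x| ≤
      1 / (Nat.log 2 x.length + 2 : ℕ) ^ k

/-- `L` is decided with gap `1 / (log₂ |x| + 2) ^ k` by such an algorithm: for some number `g x`,
computable in polynomial time, the probability of the answer `true` is at least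
`(g x + 1) / (log₂ |x| + 2) ^ k` if `x ∈ L`, and at most `g x / (log₂ |x| + 2) ^ k` if `x ∉ L`. -/
def DecidedWithGap (c e k : ℕ) (L : Set (List Bool)) : Prop :=
  ∃ (A : Machine) (g : List Bool → ℕ), Few e A ∧
    PolyTimeComputable (encOf (List Bool)) (encOf ℕ) g ∧
    (∀ x ∈ L, (g x + 1) * 2 ^ A.m x ≤ (Nat.log 2 x.length + 2) ^ k * acc A c x) ∧
    (∀ x, x ∉ L → (Nat.log 2 x.length + 2) ^ k * acc A c x ≤ g x * 2 ^ A.m x)

end Pool.Agent.Helper78.PM
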